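import Pool.Agent.H17.GM.Main

set_option autoImplicit false

namespace Pool.Agent.Results.MP_f50317_co.GirthOneTwoModFour

/-- `G` contains `k` pairwise vertex-disjoint cycles: closed walks `c i`, each of them a cycle
in the sense of Mathlib, whose vertex lists are pairwise disjoint. -/
def HasDisjointCycles {V : Type*} (G : SimpleGraph V) (k : ℕ) : Prop :=
  ∃ (v : Fin k → V) (c : (i : Fin k) → G.Walk (v i) (v i)),
    (∀ i, (c i).IsCycle) ∧ ∀ i j, i ≠ j → List.Disjoint (c i).support (c j).support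

/-- The set of all edge numbers of graphs on `n` vertices which have girth at least `g`
(forests have girth infinity) and do not contain `k` pairwise vertex-disjoint cycles.
Its greatest element is the extremal number of the problem. -/
def edgeNumbers (k n g : ℕ) : Set ℕ :=
  {e | ∃ G : SimpleGraph (Fin n),
    ¬ HasDisjointCycles G k ∧ (g : ℕ∞) ≤ G.egirth ∧ G.edgeSet.ncard = e}

/-- `A K l N S = N + M - ⌈M / K⌉` with `M = ⌊(N + S) / l⌋` -/
def A (K l N S : ℕ) : ℕ := N + ((N + S) / l - ((N + S) / l + (K - 1)) / K)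

/-- Girth `4 * l + 1` and `4 * l + 2`, `l > 2 (k - 1) (k - 2)`: the extremal number up to an
additive constant (at most one if `l ≥ 2 (k - 1)² (2 k - 1)`, exact in many residue classes), and
its exact eventual quasi-periodicity. -/
theorem result (k l g : ℕ) (hk : 2 ≤ k) (hl : 2 * (k - 1) * (k - 2) < l) (hkl : k ≤ l)
    (hg : g = 4 * l + 1 ∨ g = 4 * l + 2) : ∃ n0 : ℕ, ∀ n : ℕ, n0 ≤ n → ∃ e : ℕ,
    IsGreatest (edgeNumbers k n g) e ∧
    IsGreatest (edgeNumbers k (n + (2 * k - 1) * l) g) (e + (2 * k - 1) * (l + 1) - 1) ∧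
    A (2 * k - 1) l (n - (2 * k - 1)) 0 ≤ e ∧
    e ≤ A (2 * k - 1) l (n - (2 * k - 1)) (2 * (k - 1) ^ 2 * (2 * k - 1)) ∧
    (2 * (k - 1) ^ 2 * (2 * k - 1) ≤ l → e ≤ A (2 * k - 1) l (n - (2 * k - 1)) 0 + 1) ∧
    (2 * (k - 1) ^ 2 * (2 * k - 1) ≤ l → (2 * k - 1) ∣ (n - (2 * k - 1)) / l →
      e = A (2 * k - 1) l (n - (2 * k - 1)) 0) ∧
    ((n - (2 * k - 1)) % l + 2 * (k - 1) ^ 2 * (2 * k - 1) < l →
      e = A (2 * k - 1) l (n - (2 * k - 1)) 0) := by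
  obtain ⟨n0, h⟩ := Pool.Agent.H17.GM.main k l g hk hl hkl hg
  refine ⟨n0, fun n hn => ?_⟩
  obtain ⟨e, ⟨⟨G, h1, h2, h3⟩, h4⟩, ⟨⟨G', h1', h2', h3'⟩, h4'⟩, h5, h6⟩ := h n hn
  have hσ : (2 * k - 1) * (k - 1) * (2 * k - 2) = 2 * (k - 1) ^ 2 * (2 * k - 1) := by
    obtain ⟨q, rfl⟩ : ∃ q, k = q + 1 := ⟨k - 1, by omega⟩
    have e1 : q + 1 - 1 = q := by omega
    have e2 : 2 * (q + 1) - 2 = 2 * q := by omega
    rw [e1, e2]
    ring
  rw [hσ] at h6
  have hK : 1 ≤ 2 * k - 1 := by omega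
  have hl1 : 1 ≤ l := by omega
  have hA : ∀ N S, A (2 * k - 1) l N S = N + Pool.Agent.H17.GM.phi (2 * k - 1) l (N + S) :=
    fun N S => rfl
  refine ⟨e, ⟨⟨G, h1, h2, h3⟩, ?_⟩, ⟨⟨G', h1', h2', h3'⟩, ?_⟩, ?_, ?_, ?_, ?_, ?_⟩
  · rintro e' ⟨H, hH1, hH2, rfl⟩
    exact h4 H hH1 hH2
  · rintro e' ⟨H, hH1, hH2, rfl⟩
    exact h4' H hH1 hH2
  · rw [hA, add_zero]; exact h5
  · rw [hA]; exact h6
  · intro hs
    rw [hA, add_zero]
    have := Pool.Agent.H17.GM.phi_near (N := n - (2 * k - 1)) hK hl1 hs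
    omega
  · intro hs hd
    rw [hA, add_zero]
    have := Pool.Agent.H17.GM.phi_eq_of_dvd (N := n - (2 * k - 1)) hK hl1 hs hd
    omega
  · intro hs
    rw [hA, add_zero]
    have := Pool.Agent.H17.GM.phi_eq_of_mod (K := 2 * k - 1) (N := n - (2 * k - 1)) hl1 hs
    omega

end Pool.Agent.Results.MP_f50317_co.GirthOneTwoModFour
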