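import Pool.Agent.H38.Main3

set_option autoImplicit false

namespace Pool.Agent.Results.MP_f50317_co.GirthThreeModFour

/-- `G` contains `k` pairwise vertex-disjoint cycles: closed walks `c i`, each of them a cycle
in the sense of Mathlib, whose vertex lists are pairwise disjoint. -/
def HasDisjointCycles {V : Type*} (G : SimpleGraph V) (k : ℕ) : Prop :=
  ∃ (v : Fin k → V) (c : (i : Fin k) → G.Walk (v i) (v i)),
    (∀ i, (c i).IsCycle) ∧ ∀ i j, i ≠ j → List.Disjoint (c i).support (c j).support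

/-- The set of all edge numbers of graphs on `n` vertices which have girth at least `g`
(forests have girth infinity) and do not contain `k` pairwise vertex-disjoint cycles.
Its greatest element is the extremal number of the problem. -/
def edgeNumbers (k n g : ℕ) : Set ℕ :=
  {e | ∃ G : SimpleGraph (Fin n),
    ¬ HasDisjointCycles G k ∧ (g : ℕ∞) ≤ G.egirth ∧ G.edgeSet.ncard = e}

/-- Exact value of the extremal number for girth `4 * l - 1`, `l ≥ 2`, every `k ≥ 2` and all
large `n`. -/
theorem result (k l : ℕ) (hk : 2 ≤ k) (hl : 2 ≤ l) : ∃ n0 : ℕ, ∀ n t r : ℕ, n0 ≤ n →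
    r < (2 * k - 1) * (l - 1) + 1 →
    n = t * ((2 * k - 1) * (l - 1) + 1) + k + r →
    IsGreatest (edgeNumbers k n (4 * l - 1))
      ((2 * k - 1) * l * t + r +
        (max (min k (r / (l - 1))) ((r - 1) / (l - 1)) - 1) - (k - 1)) := by
  obtain ⟨n0, h⟩ := Pool.Agent.H38.L3.main3 k l hk hl
  refine ⟨n0, fun n t r hn hr hnt => ?_⟩
  obtain ⟨⟨G, h1, h2, h3⟩, h4⟩ := h n t r hn hr hnt
  refine ⟨⟨G, h1, h2, h3⟩, ?_⟩
  rintro e ⟨G', h1', h2', rfl⟩
  exact h4 G' h1' h2'

end Pool.Agent.Results.MP_f50317_co.GirthThreeModFour
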