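import Pool.Agent.H45.GF.UpA
import Pool.Agent.H45.GF.ManyB
import Pool.Agent.H17.GM.LM

set_option autoImplicit false

namespace Pool.Agent.Results.MP_f50317_co.ManyCycles

/-- `G` contains `k` pairwise vertex-disjoint cycles: closed walks `c i`, each of them a cycle
in the sense of Mathlib, whose vertex lists are pairwise disjoint. -/
def HasDisjointCycles {V : Type*} (G : SimpleGraph V) (k : ℕ) : Prop :=
  ∃ (v : Fin k → V) (c : (i : Fin k) → G.Walk (v i) (v i)),
    (∀ i, (c i).IsCycle) ∧ ∀ i j, i ≠ j → List.Disjoint (c i).support (c j).support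

/-- The set of all edge numbers of graphs on `n` vertices which have girth at least `g`
(forests have girth infinity) and do not contain `k` pairwise vertex-disjoint cycles.
Its greatest element is the extremal number of the problem. -/
def edgeNumbers (k n g : ℕ) : Set ℕ :=
  {e | ∃ G : SimpleGraph (Fin n),
    ¬ HasDisjointCycles G k ∧ (g : ℕ∞) ≤ G.egirth ∧ G.edgeSet.ncard = e}

/-- there is a greatest edge number -/
theorem exists_greatest (k n g : ℕ) (hk : 1 ≤ k) : ∃ m, IsGreatest (edgeNumbers k n g) m := by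
  classical
  have hne : (edgeNumbers k n g).Nonempty := by
    refine ⟨_, (⊥ : SimpleGraph (Fin n)), ?_, ?_, rfl⟩
    · rintro ⟨v, c, hc, _⟩
      obtain ⟨i⟩ : Nonempty (Fin k) := ⟨⟨0, by omega⟩⟩
      exact SimpleGraph.isAcyclic_bot (c i) (hc i)
    · rw [SimpleGraph.egirth_eq_top.2 SimpleGraph.isAcyclic_bot]
      exact le_top
  have hbd : BddAbove (edgeNumbers k n g) := by
    refine ⟨Fintype.card (Sym2 (Fin n)), ?_⟩
    rintro e ⟨G, _, _, rfl⟩
    rw [← Nat.card_eq_fintype_card]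
    exact Set.ncard_le_card _
  exact ⟨_, Nat.sSup_mem hne hbd, fun e he => le_csSup hbd he⟩

/-- The extremal number for girth `4 * l + 1` and `4 * l + 2` and every `k ≥ 2`, up to a constant:
its slope lies between `1 + (2k-2)/((2k-1)l)` and `1 + 1/l`, and is exactly `1 + 1/l` when
`k ≥ g - 2l + 1`. -/
theorem result (k l : ℕ) (hk : 2 ≤ k) (hl : 1 ≤ l) : ∃ C : ℕ, ∀ g n : ℕ,
    (g = 4 * l + 1 ∨ g = 4 * l + 2) → ∃ m : ℕ, IsGreatest (edgeNumbers k n g) m ∧
      l * m ≤ (l + 1) * n + C ∧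
      ((2 * k - 1) * l + (2 * k - 2)) * n ≤ (2 * k - 1) * l * m + C ∧
      (g ≤ 2 * l + (k - 1) → (l + 1) * n ≤ l * m + C) := by
  classical
  set C1 := 2 * l * ((2 ^ (40 * k + 1) + 2 * k) * (2 ^ (40 * k + 1) + 2 * k)) with hC1
  set C2 := ((2 * k - 1) * l + (2 * k - 2)) * (2 * k - 1) + (2 * k - 1) * l + (2 * k - 2) * l
    with hC2
  set C3 := (l + 1) * (k - 1 + l) + l with hC3
  refine ⟨C1 + C2 + C3, ?_⟩
  intro g n hg
  obtain ⟨m, hm⟩ := exists_greatest k n g (by omega)
  refine ⟨m, hm, ?_, ?_, ?_⟩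
  · obtain ⟨⟨G, h1, h2, h3⟩, -⟩ := hm
    have h4 : ((4 * l + 1 : ℕ) : ℕ∞) ≤ G.egirth := by
      refine le_trans ?_ h2
      exact_mod_cast (by omega : 4 * l + 1 ≤ g)
    have h5 := Pool.Agent.H45.GF.upper_all (G := G) hl h4 h1
    rw [h3, Fintype.card_fin] at h5
    omega
  · rcases Nat.lt_or_ge n (2 * k - 1) with hn | hn
    · have h1 : ((2 * k - 1) * l + (2 * k - 2)) * n ≤
          ((2 * k - 1) * l + (2 * k - 2)) * (2 * k - 1) := Nat.mul_le_mul_left _ hn.le
      omega
    · obtain ⟨G, h1, h2, h3⟩ := Pool.Agent.H17.GM.lower k l n hk hl hn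
      have h4 : G.edgeSet.ncard ≤ m := by
        refine hm.2 ⟨G, h1, ?_, rfl⟩
        refine le_trans ?_ h2
        exact_mod_cast (by omega : g ≤ 4 * l + 2)
      have h5 := h3.trans h4
      unfold Pool.Agent.H17.GM.phi at h5
      obtain ⟨K, hK⟩ : ∃ K, 2 * k - 1 = K + 1 := ⟨2 * k - 2, by omega⟩
      have hK2 : 2 * k - 2 = K := by omega
      obtain ⟨N, hN⟩ : ∃ N, n = N + (K + 1) := ⟨n - (K + 1), by omega⟩
      rw [hK, hN, Nat.add_sub_cancel, Nat.add_sub_cancel] at h5
      rw [hK, hK2] at hC2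
      rw [hK, hK2, hN]
      have h6 : l * (N / l) ≤ N ∧ N < l * (N / l) + l := by
        constructor
        · exact Nat.mul_div_le N l
        · have := Nat.lt_mul_div_succ N (by omega : 0 < l)
          rw [Nat.mul_add, Nat.mul_one] at this
          exact this
      have h7 : (K + 1) * ((N / l + K) / (K + 1)) ≤ N / l + K := Nat.mul_div_le _ _
      set a := N / l with ha
      set b := (a + K) / (K + 1) with hb
      have h8 : N + a ≤ m + b := by omega
      have h9 := Nat.mul_le_mul_left ((K + 1) * l) h8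
      have h10 := Nat.mul_le_mul_left l h7
      have h11 := Nat.mul_le_mul_left (K + 1) h6.2.le
      nlinarith
  · intro hg2
    obtain ⟨G, h1, h2, h3⟩ := Pool.Agent.H45.GF.Many.lower_many (g := g) hk hl (by omega) hg2 n
    have h4 : G.edgeSet.ncard ≤ m := hm.2 ⟨G, h1, h2, rfl⟩
    have h5 := Nat.mul_le_mul_left l h4
    omega

end Pool.Agent.Results.MP_f50317_co.ManyCycles
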